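import Pool.Agent.H54.WB.TargetsB

/-!
# wdb_modules, row LGF: factorials of iterated logarithms
-/

set_option autoImplicit false

namespace Pool.Agent.H45.WB

open Pool.Agent.H54.WB

theorem two_mul_le_pow (z : ℕ) (hz : z ≠ 0) : z + z ≤ 2 ^ z := by
  obtain ⟨y, rfl⟩ := Nat.exists_eq_succ_of_ne_zero hz
  have h : y < 2 ^ y := Nat.lt_two_pow_self
  rw [pow_succ]
  omega

theorem sq_lt (z : ℕ) : z * z + 1 ≤ 2 ^ (2 ^ z) := by
  rcases Nat.eq_zero_or_pos z with h | h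
  · subst h
    norm_num
  · have h1 : z < 2 ^ z := Nat.lt_two_pow_self
    have h2 : z * z < 2 ^ z * 2 ^ z := Nat.mul_lt_mul'' h1 h1
    have h3 : 2 ^ z * 2 ^ z ≤ 2 ^ (2 ^ z) := by
      rw [← pow_add]
      exact Nat.pow_le_pow_right (by norm_num) (two_mul_le_pow z (by omega))
    omega

theorem pow_log (x : ℕ) (h : Nat.log 2 x ≠ 0) : 2 ^ Nat.log 2 x ≤ x := by
  refine Nat.pow_log_le_self 2 ?_
  rintro rfl
  exact h (Nat.log_zero_right 2)

theorem pf_LGF : T_LGF := by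
  constructor
  · refine ⟨2 ^ 16, fun n hn => ?_⟩
    have e3 : ilog 3 n = Nat.log 2 (Nat.log 2 (Nat.log 2 n)) := rfl
    have e6 : ilog 6 n = Nat.log 2 (Nat.log 2 (Nat.log 2 (ilog 3 n))) := rfl
    have l1 : 16 ≤ Nat.log 2 n := Nat.le_log_of_pow_le (by norm_num) hn
    have l2 : 4 ≤ Nat.log 2 (Nat.log 2 n) := Nat.le_log_of_pow_le (by norm_num) (by omega)
    have l3 : 2 ≤ ilog 3 n := by
      rw [e3]
      exact Nat.le_log_of_pow_le (by norm_num) (by omega)
    obtain ⟨y, hy⟩ : ∃ y, y = ilog 3 n := ⟨_, rfl⟩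
    rw [e6, ← hy]
    rw [← hy] at l3
    obtain ⟨B, hB⟩ : ∃ B, B = Nat.log 2 (Nat.log 2 (Nat.log 2 y)) := ⟨_, rfl⟩
    rw [← hB]
    rcases Nat.eq_zero_or_pos B with h | h
    · rw [h, Nat.factorial_zero]
      exact l3
    · have h1 : 2 ^ B ≤ Nat.log 2 (Nat.log 2 y) := by
        rw [hB]
        exact pow_log _ (by omega)
      have h2 : 2 ^ Nat.log 2 (Nat.log 2 y) ≤ Nat.log 2 y := by
        refine pow_log _ ?_
        have : 0 < 2 ^ B := by positivity
        omega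
      have h3 : 2 ^ Nat.log 2 y ≤ y := by
        refine pow_log _ ?_
        have : 0 < 2 ^ Nat.log 2 (Nat.log 2 y) := by positivity
        omega
      have h4 : 2 ^ (2 ^ B) ≤ Nat.log 2 y := (Nat.pow_le_pow_right (by norm_num) h1).trans h2
      have h5 : 2 ^ (2 ^ (2 ^ B)) ≤ y := (Nat.pow_le_pow_right (by norm_num) h4).trans h3
      have h6 : B.factorial ≤ 2 ^ (B * B) := by
        refine (Nat.factorial_le_pow B).trans ?_
        rw [pow_mul]
        exact Nat.pow_le_pow_left (Nat.lt_two_pow_self).le B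
      have h7 : 2 * 2 ^ (B * B) = 2 ^ (B * B + 1) := by rw [pow_succ, mul_comm]
      have h8 : 2 ^ (B * B + 1) ≤ 2 ^ (2 ^ (2 ^ B)) := Nat.pow_le_pow_right (by norm_num) (sq_lt B)
      omega
  · intro n
    have e3 : ilog 3 n = Nat.log 2 (Nat.log 2 (Nat.log 2 n)) := rfl
    rw [e3]
    obtain ⟨z, hz⟩ : ∃ z, z = Nat.log 2 (Nat.log 2 (Nat.log 2 n)) := ⟨_, rfl⟩
    rw [← hz]
    rcases Nat.eq_zero_or_pos z with h | h
    · rw [h]
      exact Nat.zero_le _
    · have h1 : 2 ^ z ≤ Nat.log 2 (Nat.log 2 n) := by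
        rw [hz]
        exact pow_log _ (by omega)
      have h2 : 2 ^ Nat.log 2 (Nat.log 2 n) ≤ Nat.log 2 n := by
        refine pow_log _ ?_
        have : 0 < 2 ^ z := by positivity
        omega
      have h3 : 2 ^ (2 ^ z) ≤ Nat.log 2 n := (Nat.pow_le_pow_right (by norm_num) h1).trans h2
      have h4 := sq_lt z
      omega

end Pool.Agent.H45.WB
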