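import Pool.Agent.H54.WB.TargetsB
import Pool.Agent.H69.VR.MSat

/-!
# Twins and counting monadic second-order logic
-/

set_option autoImplicit false

namespace Pool.Agent.H45.WB

open Pool.Agent.H54.WB Pool.Agent.H69.VR

/-- the free element variables -/
def fv : MS → Set ℕ
  | .un _ x => {x}
  | .bi _ x y => {x, y}
  | .eq x y => {x, y}
  | .mem x _ => {x}
  | .mod _ _ _ => ∅
  | .neg φ => fv φ
  | .and φ ψ => fv φ ∪ fv ψ
  | .ex x φ => fv φ \ {x}
  | .exS _ φ => fv φ

/-- the moduli divide `q` -/
def MD (q : ℕ) : MS → Prop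
  | .un _ _ => True
  | .bi _ _ _ => True
  | .eq _ _ => True
  | .mem _ _ => True
  | .mod _ p _ => p + 1 ∣ q
  | .neg φ => MD q φ
  | .and φ ψ => MD q φ ∧ MD q ψ
  | .ex _ φ => MD q φ
  | .exS _ φ => MD q φ

/-- a common multiple of the moduli -/
def qq : MS → ℕ
  | .un _ _ => 1
  | .bi _ _ _ => 1
  | .eq _ _ => 1
  | .mem _ _ => 1
  | .mod _ p _ => p + 1
  | .neg φ => qq φ
  | .and φ ψ => qq φ * qq ψ
  | .ex _ φ => qq φ
  | .exS _ φ => qq φ

/-- the threshold -/
def tt (q : ℕ) : MS → ℕ
  | .un _ _ => 1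
  | .bi _ _ _ => 1
  | .eq _ _ => 1
  | .mem _ _ => 1
  | .mod _ _ _ => 1
  | .neg φ => tt q φ
  | .and φ ψ => max (tt q φ) (tt q ψ)
  | .ex _ φ => tt q φ + 1
  | .exS _ φ => 2 * (tt q φ + q)

theorem qq_pos : ∀ φ : MS, 0 < qq φ
  | .un _ _ => Nat.one_pos
  | .bi _ _ _ => Nat.one_pos
  | .eq _ _ => Nat.one_pos
  | .mem _ _ => Nat.one_pos
  | .mod _ p _ => Nat.succ_pos p
  | .neg φ => qq_pos φ
  | .and φ ψ => Nat.mul_pos (qq_pos φ) (qq_pos ψ)
  | .ex _ φ => qq_pos φ
  | .exS _ φ => qq_pos φ

theorem tt_pos (q : ℕ) : ∀ φ : MS, 0 < tt q φ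
  | .un _ _ => Nat.one_pos
  | .bi _ _ _ => Nat.one_pos
  | .eq _ _ => Nat.one_pos
  | .mem _ _ => Nat.one_pos
  | .mod _ _ _ => Nat.one_pos
  | .neg φ => tt_pos q φ
  | .and φ ψ => lt_of_lt_of_le (tt_pos q φ) (le_max_left _ _)
  | .ex _ φ => Nat.succ_pos _
  | .exS _ φ => by
      have h := tt_pos q φ
      show 0 < 2 * (tt q φ + q)
      omega

theorem md_dvd {q : ℕ} : ∀ φ : MS, qq φ ∣ q → MD q φ
  | .un _ _, _ => trivial
  | .bi _ _ _, _ => trivial
  | .eq _ _, _ => trivial
  | .mem _ _, _ => trivial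
  | .mod _ _ _, h => h
  | .neg φ, h => md_dvd φ h
  | .and φ ψ, h => ⟨md_dvd φ ((Nat.dvd_mul_right _ _).trans h), md_dvd ψ ((Nat.dvd_mul_left _ _).trans h)⟩
  | .ex _ φ, h => md_dvd φ h
  | .exS _ φ, h => md_dvd φ h

theorem md_clo {q : ℕ} {φ : MS} (h : MD q φ) : ∀ n, MD q (φ.clo n)
  | 0 => h
  | n + 1 => md_clo h n

theorem fv_lt : ∀ (φ : MS) (x : ℕ), x ∈ fv φ → x < φ.vb
  | .un _ y, x, h => by
      have h : x = y := h
      show x < y + 1
      omega
  | .bi _ y z, x, h => by
      have h : x = y ∨ x = z := h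
      show x < max (y + 1) (z + 1)
      rcases h with h | h <;> omega
  | .eq y z, x, h => by
      have h : x = y ∨ x = z := h
      show x < max (y + 1) (z + 1)
      rcases h with h | h <;> omega
  | .mem y Z, x, h => by
      have h : x = y := h
      show x < max (y + 1) (Z + 1)
      omega
  | .mod _ _ _, _, h => h.elim
  | .neg φ, x, h => fv_lt φ x h
  | .and φ ψ, x, h => by
      rcases h with h | h
      · exact lt_of_lt_of_le (fv_lt φ x h) (le_max_left _ _)
      · exact lt_of_lt_of_le (fv_lt ψ x h) (le_max_right _ _)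
  | .ex _ φ, x, h => lt_of_lt_of_le (fv_lt φ x h.1) (le_max_right _ _)
  | .exS _ φ, x, h => lt_of_lt_of_le (fv_lt φ x h) (le_max_right _ _)

theorem fv_clo {φ : MS} {x : ℕ} : ∀ n, x ∈ fv (φ.clo n) → x ∈ fv φ ∧ n ≤ x
  | 0, h => ⟨h, Nat.zero_le _⟩
  | n + 1, h => by
      have h' : x ∈ fv (φ.clo n) \ {n} := h
      obtain ⟨h1, h2⟩ := fv_clo n h'.1
      have h3 : x ≠ n := h'.2
      exact ⟨h1, by omega⟩

/-! ### invariance -/

theorem upd_of {α β : Type} (g : α → β) {e : ℕ → α} {e' : ℕ → β} {s : Set ℕ} {x : ℕ} {a : α} {b : β}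
    (h : ∀ y ∈ s \ {x}, e' y = g (e y)) (hb : b = g a) :
    ∀ y ∈ s, Function.update e' x b y = g (Function.update e x a y) := by
  intro y hy
  by_cases hyx : y = x
  · subst hyx
    rw [Function.update_self, Function.update_self, hb]
  · rw [Function.update_of_ne hyx, Function.update_of_ne hyx]
    exact h y ⟨hy, hyx⟩

theorem upd_all {α β : Type} (g : α → β) {e : ℕ → α} {e' : ℕ → β} {x : ℕ} {a : α} {b : β}
    (h : ∀ y, y ≠ x → e' y = g (e y)) (hb : b = g a) :
    ∀ y, Function.update e' x b y = g (Function.update e x a y) := by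
  intro y
  by_cases hyx : y = x
  · subst hyx
    rw [Function.update_self, Function.update_self, hb]
  · rw [Function.update_of_ne hyx, Function.update_of_ne hyx]
    exact h y hyx

theorem sat_eqv {A B : Type} {m : ℕ} {P : ℕ → A → Prop} {R : A → A → Prop} {P' : ℕ → B → Prop}
    {R' : B → B → Prop} (f : A ≃ B) (hP : ∀ i < m, ∀ a, P' i (f a) ↔ P i a)
    (hR : ∀ a b, R' (f a) (f b) ↔ R a b) : ∀ (φ : MS), φ.Below m → ∀ (e : ℕ → A) (e' : ℕ → B)
      (V : ℕ → Set A) (V' : ℕ → Set B), (∀ x ∈ fv φ, e' x = f (e x)) → (∀ X, V' X = f '' V X) →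
        (φ.Sat P' (fun _ => R') e' V' ↔ φ.Sat P (fun _ => R) e V)
  | .un i x, hm, e, e', V, V', he, _ => by
      show P' i (e' x) ↔ P i (e x)
      rw [he x rfl]
      exact hP i hm _
  | .bi i x y, _, e, e', V, V', he, _ => by
      show R' (e' x) (e' y) ↔ R (e x) (e y)
      rw [he x (Or.inl rfl), he y (Or.inr rfl)]
      exact hR _ _
  | .eq x y, _, e, e', V, V', he, _ => by
      show e' x = e' y ↔ e x = e y
      rw [he x (Or.inl rfl), he y (Or.inr rfl)]
      exact f.injective.eq_iff
  | .mem x X, _, e, e', V, V', he, hV => by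
      show e' x ∈ V' X ↔ e x ∈ V X
      rw [he x rfl, hV X]
      exact f.injective.mem_set_image
  | .mod X p r, _, e, e', V, V', _, hV => by
      show (V' X).ncard ≡ r [MOD p + 1] ↔ (V X).ncard ≡ r [MOD p + 1]
      rw [hV X, Set.ncard_image_of_injective _ f.injective]
  | .neg φ, hm, e, e', V, V', he, hV => not_congr (sat_eqv f hP hR φ hm e e' V V' he hV)
  | .and φ ψ, hm, e, e', V, V', he, hV =>
      and_congr (sat_eqv f hP hR φ hm.1 e e' V V' (fun x hx => he x (Or.inl hx)) hV)
        (sat_eqv f hP hR ψ hm.2 e e' V V' (fun x hx => he x (Or.inr hx)) hV)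
  | .ex x φ, hm, e, e', V, V', he, hV => by
      show (∃ b : B, φ.Sat P' (fun _ => R') (Function.update e' x b) V') ↔
        ∃ a : A, φ.Sat P (fun _ => R) (Function.update e x a) V
      constructor
      · rintro ⟨b, hb⟩
        exact ⟨f.symm b, (sat_eqv f hP hR φ hm _ _ V V'
          (upd_of f he (f.apply_symm_apply b).symm) hV).1 hb⟩
      · rintro ⟨a, ha⟩
        exact ⟨f a, (sat_eqv f hP hR φ hm _ _ V V' (upd_of f he rfl) hV).2 ha⟩
  | .exS X φ, hm, e, e', V, V', he, hV => by
      show (∃ T : Set B, φ.Sat P' (fun _ => R') e' (Function.update V' X T)) ↔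
        ∃ T : Set A, φ.Sat P (fun _ => R) e (Function.update V X T)
      constructor
      · rintro ⟨T, hT⟩
        exact ⟨f ⁻¹' T, (sat_eqv f hP hR φ hm e e' _ _ he
          (upd_all (fun T => f '' T) (fun y _ => hV y)
            (Set.image_preimage_eq T f.surjective).symm)).1 hT⟩
      · rintro ⟨T, hT⟩
        exact ⟨f '' T, (sat_eqv f hP hR φ hm e e' _ _ he
          (upd_all (fun T => f '' T) (fun y _ => hV y) rfl)).2 hT⟩

/-! ### twins -/

section tw
variable {A : Type} {m q : ℕ} {P : ℕ → A → Prop} {E : A → A → Prop} {S : Set A}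

/-- equal or both in `S` -/
def Tw (S : Set A) (a a' : A) : Prop := a = a' ∨ (a ∈ S ∧ a' ∈ S)

theorem tw_P (h : Twins m P E S) {i : ℕ} (hi : i < m) {a a' : A} (t : Tw S a a') :
    P i a ↔ P i a' := by
  rcases t with t | ⟨ha, ha'⟩
  · rw [t]
  · exact h.un a ha a' ha' i hi

theorem tw_E (h : Twins m P E S) {a a' b b' : A} (t : Tw S a a') (t' : Tw S b b') :
    E a b ↔ E a' b' := by
  rcases t with t | ⟨ha, ha'⟩
  · subst t
    rcases t' with t' | ⟨hb, hb'⟩
    · rw [t']
    · by_cases hs : a ∈ S
      · exact ⟨fun k => (h.ind a hs b hb k).elim, fun k => (h.ind a hs b' hb' k).elim⟩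
      · exact (h.adj b hb b' hb' a hs).1
  · rcases t' with t' | ⟨hb, hb'⟩
    · subst t'
      by_cases hs : b ∈ S
      · exact ⟨fun k => (h.ind a ha b hs k).elim, fun k => (h.ind a' ha' b hs k).elim⟩
      · exact (h.adj a ha a' ha' b hs).2
    · exact ⟨fun k => (h.ind a ha b hb k).elim, fun k => (h.ind a' ha' b' hb' k).elim⟩

theorem tw_sub (h : Twins m P E S) {S' : Set A} (hs : S' ⊆ S) : Twins m P E S' where
  un a ha b hb := h.un a (hs ha) b (hs hb)
  adj a ha b hb x hx := by
    by_cases hxs : x ∈ S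
    · exact ⟨⟨fun k => (h.ind x hxs a (hs ha) k).elim, fun k => (h.ind x hxs b (hs hb) k).elim⟩,
        ⟨fun k => (h.ind a (hs ha) x hxs k).elim, fun k => (h.ind b (hs hb) x hxs k).elim⟩⟩
    · exact h.adj a (hs ha) b (hs hb) x hxs
  ind a ha b hb := h.ind a (hs ha) b (hs hb)

/-- `V` contains all or no elements of `S` -/
def Hg (S V : Set A) : Prop := ∀ a ∈ S, ∀ b ∈ S, (a ∈ V ↔ b ∈ V)

theorem tw_V {V : Set A} (h : Hg S V) {a a' : A} (t : Tw S a a') : a ∈ V ↔ a' ∈ V := by
  rcases t with t | ⟨ha, ha'⟩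
  · rw [t]
  · exact h a ha a' ha'

/-- the set with the new elements -/
def pl (q : ℕ) (w : A) (V : Set A) : Set (A ⊕ Fin q) := {x | ret q w x ∈ V}

/-- `f` respects twins -/
def Rs (q : ℕ) (S : Set A) (w w' : A) (f : A ⊕ Fin q ≃ A ⊕ Fin q) : Prop :=
  ∀ b, Tw S (ret q w' (f b)) (ret q w b)

theorem pl_image {w w' : A} {f : A ⊕ Fin q ≃ A ⊕ Fin q} (hf : Rs q S w w' f) {V : Set A}
    (h : Hg S V) : pl q w' V = f '' pl q w V := by
  ext x
  constructor
  · intro hx
    refine ⟨f.symm x, ?_, f.apply_symm_apply x⟩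
    have h1 := tw_V h (hf (f.symm x))
    rw [f.apply_symm_apply] at h1
    exact h1.1 hx
  · rintro ⟨b, hb, rfl⟩
    exact (tw_V h (hf b)).2 hb

theorem rs_refl {w w' : A} (hw : w ∈ S) (hw' : w' ∈ S) : Rs q S w w' (Equiv.refl _) := by
  intro b
  rcases b with a | j
  · exact Or.inl rfl
  · exact Or.inr ⟨hw', hw⟩

theorem sat_mv (h : Twins m P E S) {w w' : A} {f : A ⊕ Fin q ≃ A ⊕ Fin q} (hf : Rs q S w w' f)
    {φ : MS} (hm : φ.Below m) {e e' : ℕ → A ⊕ Fin q} {V V' : ℕ → Set (A ⊕ Fin q)}
    (he : ∀ x ∈ fv φ, e' x = f (e x)) (hV : ∀ X, V' X = f '' V X) :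
    φ.Sat (fun i x => P i (ret q w' x)) (fun _ x y => E (ret q w' x) (ret q w' y)) e' V' ↔
      φ.Sat (fun i x => P i (ret q w x)) (fun _ x y => E (ret q w x) (ret q w y)) e V :=
  sat_eqv (P := fun i x => P i (ret q w x)) (R := fun x y => E (ret q w x) (ret q w y))
    (P' := fun i x => P i (ret q w' x)) (R' := fun x y => E (ret q w' x) (ret q w' y)) f
    (fun _ hi b => tw_P h hi (hf b)) (fun a b => tw_E h (hf a) (hf b)) φ hm e e' V V' he hV

theorem pl_mem {w : A} {V : Set A} (hw : w ∈ V) : pl q w V = Sum.inl '' V ∪ Set.range Sum.inr := by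
  ext x
  rcases x with a | j
  · constructor
    · intro h
      exact Or.inl ⟨a, h, rfl⟩
    · rintro (⟨b, hb, hab⟩ | ⟨j, hj⟩)
      · rw [← Sum.inl.inj hab]
        exact hb
      · exact (Sum.inr_ne_inl hj).elim
  · exact ⟨fun _ => Or.inr ⟨j, rfl⟩, fun _ => hw⟩

theorem pl_not {w : A} {V : Set A} (hw : w ∉ V) : pl q w V = Sum.inl '' V := by
  ext x
  rcases x with a | j
  · constructor
    · intro h
      exact ⟨a, h, rfl⟩
    · rintro ⟨b, hb, hab⟩
      rw [← Sum.inl.inj hab]
      exact hb
  · constructor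
    · intro h
      exact (hw h).elim
    · rintro ⟨b, _, hab⟩
      exact (Sum.inl_ne_inr hab).elim

theorem inl_disj (V : Set A) : Disjoint (Sum.inl '' V : Set (A ⊕ Fin q)) (Set.range Sum.inr) := by
  rw [Set.disjoint_left]
  rintro _ ⟨a, _, rfl⟩ ⟨j, hj⟩
  exact Sum.inr_ne_inl hj

theorem range_inr : (Set.range (Sum.inr : Fin q → A ⊕ Fin q)).ncard = q := by
  rw [← Set.image_univ, Set.ncard_image_of_injective _ Sum.inr_injective, Set.ncard_univ,
    Nat.card_fin]

variable [Finite A]

theorem pl_ncard {w : A} {V : Set A} (hw : w ∈ V) : (pl q w V).ncard = V.ncard + q := by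
  rw [pl_mem hw, Set.ncard_union_eq (inl_disj V), range_inr,
    Set.ncard_image_of_injective _ Sum.inl_injective]

theorem pl_ncard' {w : A} {V : Set A} (hw : w ∉ V) : (pl q w V).ncard = V.ncard := by
  rw [pl_not hw, Set.ncard_image_of_injective _ Sum.inl_injective]

end tw

theorem split {B : Type} [Finite B] (S T : Set B) {n : ℕ} (h : 2 * n ≤ S.ncard) :
    ∃ L ⊆ S, n ≤ L.ncard ∧ Hg L T := by
  have h1 := Set.ncard_inter_add_ncard_sdiff_eq_ncard S T (Set.toFinite _)
  by_cases h2 : n ≤ (S ∩ T).ncard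
  · exact ⟨S ∩ T, Set.inter_subset_left, h2, fun a ha b hb => ⟨fun _ => hb.2, fun _ => ha.2⟩⟩
  · exact ⟨S \ T, Set.sdiff_subset, by omega,
      fun a ha b hb => ⟨fun k => (ha.2 k).elim, fun k => (hb.2 k).elim⟩⟩

theorem exists_perm {B : Type} [Finite B] {Sp D N : Set B} (hD : D ⊆ Sp) (hN : N ⊆ Sp)
    (h : D.ncard = N.ncard) :
    ∃ f : B ≃ B, (∀ b, b ∉ Sp → f b = b) ∧ (∀ b ∈ Sp, f b ∈ Sp) ∧ f '' D = N := by
  classical
  have : Fintype B := Fintype.ofFinite B
  have e0 : {x : {b // b ∈ Sp} // x.1 ∈ D} ≃ {x : {b // b ∈ Sp} // x.1 ∈ N} := by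
    refine Fintype.equivOfCardEq ?_
    have h1 : ∀ M : Set B, M ⊆ Sp → Fintype.card {x : {b // b ∈ Sp} // x.1 ∈ M} = M.ncard := by
      intro M hM
      rw [← Nat.card_eq_fintype_card]
      refine Nat.card_congr ⟨fun x => ⟨x.1.1, x.2⟩, fun x => ⟨⟨x.1, hM x.2⟩, x.2⟩, ?_, ?_⟩
      · intro x
        rfl
      · intro x
        rfl
    rw [h1 D hD, h1 N hN, h]
  let e1 : Equiv.Perm {b // b ∈ Sp} := e0.extendSubtype
  refine ⟨Equiv.Perm.ofSubtype e1, ?_, ?_, ?_⟩
  · intro b hb
    exact Equiv.Perm.ofSubtype_apply_of_not_mem e1 hb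
  · intro b hb
    rw [Equiv.Perm.ofSubtype_apply_of_mem e1 hb]
    exact (e1 ⟨b, hb⟩).2
  · have h2 : ∀ b ∈ D, Equiv.Perm.ofSubtype e1 b ∈ N := by
      intro b hb
      rw [Equiv.Perm.ofSubtype_apply_of_mem e1 (hD hb)]
      exact Equiv.extendSubtype_mem e0 ⟨b, hD hb⟩ hb
    refine Set.eq_of_subset_of_ncard_le ?_ ?_ (Set.toFinite _)
    · rintro _ ⟨b, hb, rfl⟩
      exact h2 b hb
    · rw [Set.ncard_image_of_injective _ (Equiv.injective _), h]

/-! ### the main claim -/

section cl
variable {A : Type} [Finite A] {m q : ℕ} {P : ℕ → A → Prop} {E : A → A → Prop}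

theorem inl_upd {B C : Type} (g : B → C) (e : ℕ → B) (x : ℕ) (a : B) :
    (fun y => g (Function.update e x a y)) = Function.update (fun y => g (e y)) x (g a) := by
  funext y
  by_cases hyx : y = x
  · subst hyx
    rw [Function.update_self, Function.update_self]
  · rw [Function.update_of_ne hyx, Function.update_of_ne hyx]

theorem claim : ∀ (φ : MS), φ.Below m → MD q φ → ∀ (S : Set A) (w : A) (e : ℕ → A)
    (V : ℕ → Set A), Twins m P E S → w ∈ S → tt q φ ≤ S.ncard → (∀ x ∈ fv φ, e x ∉ S) →
      (∀ X, Hg S (V X)) → (φ.Sat P (fun _ => E) e V ↔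
        φ.Sat (fun i x => P i (ret q w x)) (fun _ x y => E (ret q w x) (ret q w y))
          (fun x => Sum.inl (e x)) (fun X => pl q w (V X)))
  | .un i x, _, _, S, w, e, V, _, _, _, _, _ => Iff.rfl
  | .bi i x y, _, _, S, w, e, V, _, _, _, _, _ => Iff.rfl
  | .eq x y, _, _, S, w, e, V, _, _, _, _, _ =>
      ⟨fun h => congrArg Sum.inl h, fun h => Sum.inl.inj h⟩
  | .mem x X, _, _, S, w, e, V, _, _, _, _, _ => Iff.rfl
  | .mod X p r, _, hq, S, w, e, V, _, _, _, _, _ => by
      show (V X).ncard ≡ r [MOD p + 1] ↔ (pl q w (V X)).ncard ≡ r [MOD p + 1]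
      by_cases hw : w ∈ V X
      · rw [pl_ncard hw]
        have h1 : (V X).ncard + q ≡ (V X).ncard + 0 [MOD p + 1] :=
          Nat.ModEq.add_left _ ((Nat.modEq_zero_iff_dvd).2 hq)
        rw [Nat.add_zero] at h1
        exact ⟨fun h => h1.trans h, fun h => h1.symm.trans h⟩
      · rw [pl_ncard' hw]
  | .neg φ, hm, hq, S, w, e, V, h, hw, ht, he, hV =>
      not_congr (claim φ hm hq S w e V h hw ht he hV)
  | .and φ ψ, hm, hq, S, w, e, V, h, hw, ht, he, hV =>
      and_congr (claim φ hm.1 hq.1 S w e V h hw (le_trans (le_max_left _ _) ht)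
          (fun x hx => he x (Or.inl hx)) hV)
        (claim ψ hm.2 hq.2 S w e V h hw (le_trans (le_max_right _ _) ht)
          (fun x hx => he x (Or.inr hx)) hV)
  | .ex x φ, hm, hq, S, w, e, V, h, hw, ht, he, hV => by
      have ht' : tt q φ + 1 ≤ S.ncard := ht
      have key : ∀ a : A, φ.Sat P (fun _ => E) (Function.update e x a) V ↔
          φ.Sat (fun i x => P i (ret q w x)) (fun _ x y => E (ret q w x) (ret q w y))
            (Function.update (fun x => Sum.inl (e x)) x (Sum.inl a)) (fun X => pl q w (V X)) := by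
        intro a
        rw [← inl_upd Sum.inl]
        by_cases ha : a ∈ S
        · have hs : S \ {a} ⊆ S := Set.sdiff_subset
          have hc : tt q φ ≤ (S \ {a}).ncard := by
            rw [Set.ncard_sdiff_singleton_of_mem ha]
            omega
          obtain ⟨w1, hw1⟩ : (S \ {a}).Nonempty := by
            rw [← Set.ncard_pos]
            exact lt_of_lt_of_le (tt_pos q φ) hc
          refine (claim φ hm hq (S \ {a}) w1 (Function.update e x a) V (tw_sub h hs) hw1 hc ?_
            (fun X b hb c hc => hV X b (hs hb) c (hs hc))).trans ?_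
          · intro y hy
            by_cases hyx : y = x
            · subst hyx
              rw [Function.update_self]
              exact fun k => k.2 rfl
            · rw [Function.update_of_ne hyx]
              exact fun k => he y ⟨hy, hyx⟩ k.1
          · refine sat_mv (φ := φ) h (rs_refl hw (hs hw1)) hm (fun y _ => rfl) ?_
            intro X
            exact pl_image (rs_refl hw (hs hw1)) (hV X)
        · refine claim φ hm hq S w (Function.update e x a) V h hw (by omega) ?_ hV
          intro y hy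
          by_cases hyx : y = x
          · subst hyx
            rw [Function.update_self]
            exact ha
          · rw [Function.update_of_ne hyx]
            exact he y ⟨hy, hyx⟩
      show (∃ a : A, φ.Sat P (fun _ => E) (Function.update e x a) V) ↔
        ∃ b : A ⊕ Fin q, φ.Sat (fun i x => P i (ret q w x))
          (fun _ x y => E (ret q w x) (ret q w y))
          (Function.update (fun x => Sum.inl (e x)) x b) (fun X => pl q w (V X))
      constructor
      · rintro ⟨a, ha⟩
        exact ⟨Sum.inl a, (key a).1 ha⟩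
      · rintro ⟨b, hb⟩
        rcases b with a | j
        · exact ⟨a, (key a).2 hb⟩
        · classical
          refine ⟨w, (key w).2 ?_⟩
          have hf : Rs q S w w (Equiv.swap (Sum.inr j) (Sum.inl w)) := by
            intro b
            by_cases h1 : b = Sum.inr j
            · rw [h1, Equiv.swap_apply_left]
              exact Or.inl rfl
            · by_cases h2 : b = Sum.inl w
              · rw [h2, Equiv.swap_apply_right]
                exact Or.inl rfl
              · rw [Equiv.swap_apply_of_ne_of_ne h1 h2]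
                exact Or.inl rfl
          refine (sat_mv (φ := φ) h hf hm (upd_of _ ?_ ?_) ?_).2 hb
          · intro y hy
            have h3 : e y ≠ w := fun k => he y hy (k ▸ hw)
            exact (Equiv.swap_apply_of_ne_of_ne Sum.inl_ne_inr
              (fun k => h3 (Sum.inl.inj k))).symm
          · exact (Equiv.swap_apply_left _ _).symm
          · intro X
            exact pl_image hf (hV X)
  | .exS X φ, hm, hq, S, w, e, V, h, hw, ht, he, hV => by
      have ht' : 2 * (tt q φ + q) ≤ S.ncard := ht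
      show (∃ T : Set A, φ.Sat P (fun _ => E) e (Function.update V X T)) ↔
        ∃ T : Set (A ⊕ Fin q), φ.Sat (fun i x => P i (ret q w x))
          (fun _ x y => E (ret q w x) (ret q w y)) (fun x => Sum.inl (e x))
          (Function.update (fun X => pl q w (V X)) X T)
      have hup : ∀ (T : Set A) (S1 : Set A), S1 ⊆ S → Hg S1 T →
          ∀ Y, Hg S1 (Function.update V X T Y) := by
        intro T S1 hs hT Y
        by_cases hy : Y = X
        · subst hy
          rw [Function.update_self]
          exact hT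
        · rw [Function.update_of_ne hy]
          exact fun a ha b hb => hV Y a (hs ha) b (hs hb)
      constructor
      · rintro ⟨T, hT⟩
        obtain ⟨S1, hs, hc, h1⟩ := split S T ht'
        obtain ⟨w1, hw1⟩ : S1.Nonempty := by
          rw [← Set.ncard_pos]
          have := tt_pos q φ
          omega
        have h2 := (claim φ hm hq S1 w1 e (Function.update V X T) (tw_sub h hs) hw1 (by omega)
          (fun x hx k => he x hx (hs k)) (hup T S1 hs h1)).1 hT
        refine ⟨pl q w1 T, (sat_mv (φ := φ) h (rs_refl (hs hw1) hw) hm (fun y _ => rfl) ?_).2 h2⟩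
        refine fun Y => ?_
        by_cases hy : Y = X
        · subst hy
          simp only [Function.update_self]
          exact (Set.image_id _).symm
        · simp only [Function.update_of_ne hy]
          exact pl_image (rs_refl (hs hw1) hw) (hV Y)
      · rintro ⟨T, hT⟩
        have hsp : (pl q w S).ncard = S.ncard + q := pl_ncard hw
        obtain ⟨L, hL, hLc, hLT⟩ := split (pl q w S) T (n := tt q φ + q) (by omega)
        obtain ⟨D, hDL, hDc⟩ := Set.exists_subset_card_eq (s := L) (n := q) (by omega)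
        have hN : Set.range (Sum.inr : Fin q → A ⊕ Fin q) ⊆ pl q w S := by
          rintro _ ⟨j, rfl⟩
          exact hw
        obtain ⟨f, hf1, hf2, hf3⟩ := exists_perm (hDL.trans hL) hN (hDc.trans range_inr.symm)
        have hfL : ∀ b ∈ f '' L, b ∈ pl q w S := by
          rintro _ ⟨b, hb, rfl⟩
          exact hf2 b (hL hb)
        have hNL : ∀ j : Fin q, Sum.inr j ∈ f '' L := by
          intro j
          have h1 : (Sum.inr j : A ⊕ Fin q) ∈ f '' D := by
            rw [hf3]
            exact ⟨j, rfl⟩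
          exact Set.image_mono hDL h1
        have hT' : Hg (f '' L) (f '' T) := by
          rintro _ ⟨a, ha, rfl⟩ _ ⟨b, hb, rfl⟩
          rw [f.injective.mem_set_image, f.injective.mem_set_image]
          exact hLT a ha b hb
        set S1 : Set A := {a | Sum.inl a ∈ f '' L} with hS1
        have hs : S1 ⊆ S := fun a ha => hfL _ ha
        have hc : tt q φ ≤ S1.ncard := by
          have h1 : f '' L = Sum.inl '' S1 ∪ Set.range Sum.inr := by
            ext x
            rcases x with a | j
            · constructor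
              · intro h
                exact Or.inl ⟨a, h, rfl⟩
              · rintro (⟨b, hb, hab⟩ | ⟨j, hj⟩)
                · rw [← Sum.inl.inj hab]
                  exact hb
                · exact (Sum.inr_ne_inl hj).elim
            · exact ⟨fun _ => Or.inr ⟨j, rfl⟩, fun _ => hNL j⟩
          have h2 := congrArg Set.ncard h1
          rw [Set.ncard_union_eq (inl_disj S1), range_inr,
            Set.ncard_image_of_injective _ Sum.inl_injective,
            Set.ncard_image_of_injective _ f.injective] at h2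
          omega
        obtain ⟨w1, hw1⟩ : S1.Nonempty := by
          rw [← Set.ncard_pos]
          exact lt_of_lt_of_le (tt_pos q φ) hc
        have hfr : Rs q S w w1 f := by
          intro b
          by_cases hb : b ∈ pl q w S
          · refine Or.inr ⟨?_, hb⟩
            have h1 := hf2 b hb
            rcases hfb : f b with a | j
            · rw [hfb] at h1
              exact h1
            · exact hs hw1
          · rw [hf1 b hb]
            rcases b with a | j
            · exact Or.inl rfl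
            · exact (hb hw).elim
        set T0 : Set A := {a | Sum.inl a ∈ f '' T} with hT0
        have hT1 : Hg S1 T0 := fun a ha b hb => hT' _ ha _ hb
        have hpl : pl q w1 T0 = f '' T := by
          ext x
          rcases x with a | j
          · exact Iff.rfl
          · exact hT' _ hw1 _ (hNL j)
        refine ⟨T0, (claim φ hm hq S1 w1 e (Function.update V X T0) (tw_sub h hs) hw1 hc
          (fun x hx k => he x hx (hs k)) (hup T0 S1 hs hT1)).2 ?_⟩
        refine (sat_mv (φ := φ) h hfr hm ?_ ?_).2 hT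
        · intro x hx
          exact (hf1 _ (fun k => he x hx k)).symm
        · intro Y
          by_cases hy : Y = X
          · subst hy
            simp only [Function.update_self]
            exact hpl
          · simp only [Function.update_of_ne hy]
            exact pl_image hfr (hV Y)

end cl

/-! ### closures -/

theorem sat_vb {A : Type} {P : ℕ → A → Prop} {R : ℕ → A → A → Prop} (φ : MS) (e e' : ℕ → A)
    (V V' : ℕ → Set A) (he : ∀ x < φ.vb, e x = e' x) (hV : ∀ x < φ.vb, V x = V' x) :
    φ.Sat P R e V ↔ φ.Sat P R e' V' := by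
  have h1 := sat_iff (P := P) (R := R) (fun _ : A => ()) φ φ.vb le_rfl (fun x => some (e x)) e V V
    (fun _ _ => rfl) (fun _ _ => rfl)
  have h2 := sat_iff (P := P) (R := R) (fun _ : A => ()) φ φ.vb le_rfl (fun x => some (e x)) e' V V'
    (fun x hx => congrArg some (he x hx)) hV
  exact h1.trans h2.symm

theorem clo_sat {A : Type} {P : ℕ → A → Prop} {R : ℕ → A → A → Prop} (φ : MS) :
    ∀ (n : ℕ) (e : ℕ → A) (V : ℕ → Set A), (φ.clo n).Sat P R e V ↔
      ∀ (e' : ℕ → A) (V' : ℕ → Set A), (∀ i, n ≤ i → e' i = e i) → (∀ i, n ≤ i → V' i = V i) →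
        φ.Sat P R e' V'
  | 0, e, V => by
      constructor
      · intro h e' V' he hV
        have h1 : e' = e := funext fun i => he i (Nat.zero_le _)
        have h2 : V' = V := funext fun i => hV i (Nat.zero_le _)
        rw [h1, h2]
        exact h
      · intro h
        exact h e V (fun _ _ => rfl) (fun _ _ => rfl)
  | n + 1, e, V => by
      show (¬ ∃ a : A, ∃ T : Set A, ¬ (φ.clo n).Sat P R (Function.update e n a)
        (Function.update V n T)) ↔ _
      constructor
      · intro h e' V' he hV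
        by_contra hn
        refine h ⟨e' n, V' n, fun k => hn ?_⟩
        refine (clo_sat φ n _ _).1 k e' V' ?_ ?_
        · intro i hi
          by_cases hin : i = n
          · subst hin
            rw [Function.update_self]
          · rw [Function.update_of_ne hin]
            exact he i (by omega)
        · intro i hi
          by_cases hin : i = n
          · subst hin
            rw [Function.update_self]
          · rw [Function.update_of_ne hin]
            exact hV i (by omega)
      · rintro h ⟨a, T, hn⟩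
        refine hn ((clo_sat φ n _ _).2 fun e' V' he hV => h e' V' ?_ ?_)
        · intro i hi
          rw [he i (by omega), Function.update_of_ne (by omega)]
        · intro i hi
          rw [hV i (by omega), Function.update_of_ne (by omega)]

theorem clo_iff {A : Type} {P : ℕ → A → Prop} {R : ℕ → A → A → Prop} (φ : MS) (e : ℕ → A)
    (V : ℕ → Set A) : (φ.clo φ.vb).Sat P R e V ↔
      ∀ (e : ℕ → A) (V : ℕ → Set A), φ.Sat P R e V := by
  rw [clo_sat φ φ.vb e V]
  constructor
  · intro h e' V'
    have h1 := h (fun i => if i < φ.vb then e' i else e i)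
      (fun i => if i < φ.vb then V' i else V i) (fun i hi => if_neg (by omega))
      (fun i hi => if_neg (by omega))
    exact (sat_vb φ _ _ _ _ (fun x hx => if_pos hx) (fun x hx => if_pos hx)).1 h1
  · intro h e' V' _ _
    exact h e' V'

theorem pf_TWN : T_TWN := by
  intro Ψ m hm
  refine ⟨qq Ψ, tt (qq Ψ) (Ψ.clo Ψ.vb), qq_pos Ψ, tt_pos _ _, ?_⟩
  intro A _ P E S w h hw ht
  have h1 := claim (P := P) (E := E) (Ψ.clo Ψ.vb) (MS.below_clo hm _)
    (md_clo (md_dvd Ψ dvd_rfl) Ψ.vb) S w (fun _ => w) (fun _ => ∅) h hw ht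
    (fun x hx => by
      obtain ⟨h1, h2⟩ := fv_clo _ hx
      have h3 := fv_lt Ψ x h1
      omega)
    (fun _ _ _ _ _ => Iff.rfl)
  rw [clo_iff, clo_iff] at h1
  exact h1

end Pool.Agent.H45.WB
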